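import Pool.Agent.H51.CM.Emb

/-!
# T3, (W1#), COM: the completions lemma with the number of classes and of boxes
-/

open scoped NumberField

set_option autoImplicit false

noncomputable section

namespace H51.CM

open H88.A4 H77.CO

/-- the number of dyadic boxes is linear in `Λ` -/
theorem exLL (Cz : ℝ) (hCz : 1 ≤ Cz) (k : ℕ) : ∃ C4 : ℝ, 0 < C4 ∧
    ∀ Λ : ℝ, 1 ≤ Λ → ∃ L : ℕ, Cz * Real.exp (k * Λ) ≤ 2 ^ L ∧ 2 * ((L : ℝ) + 1) ≤ C4 * Λ := by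
  have hl2 : 0 < Real.log 2 := Real.log_pos (by norm_num)
  have hlC : 0 ≤ Real.log Cz := Real.log_nonneg hCz
  refine ⟨2 * (Real.log Cz / Real.log 2 + k / Real.log 2 + 2), by positivity, fun Λ hΛ => ?_⟩
  have hΛ0 : 0 ≤ Λ := by linarith
  set z : ℝ := (Real.log Cz + k * Λ) / Real.log 2 with hz
  have hz0 : 0 ≤ z := by positivity
  refine ⟨⌈z⌉₊, ?_, ?_⟩
  · have h1 : Cz * Real.exp (k * Λ) = (2 : ℝ) ^ z := by
      rw [Real.rpow_def_of_pos (by norm_num), hz, mul_div_cancel₀ _ hl2.ne', Real.exp_add,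
        Real.exp_log (by linarith)]
    rw [h1, ← Real.rpow_natCast]
    exact Real.rpow_le_rpow_of_exponent_le (by norm_num) (Nat.le_ceil z)
  · have h1 : (⌈z⌉₊ : ℝ) < z + 1 := Nat.ceil_lt_add_one hz0
    have h2 : z ≤ (Real.log Cz / Real.log 2 + k / Real.log 2) * Λ := by
      rw [hz, add_div, add_mul]
      have e1 : Real.log Cz / Real.log 2 ≤ Real.log Cz / Real.log 2 * Λ :=
        le_mul_of_one_le_right (by positivity) hΛ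
      have e2 : (k : ℝ) * Λ / Real.log 2 = k / Real.log 2 * Λ := by ring
      linarith
    have h3 : 2 * ((⌈z⌉₊ : ℝ) + 1) ≤ 2 * ((Real.log Cz / Real.log 2 + k / Real.log 2) * Λ + 2 * Λ) := by
      linarith
    refine h3.trans (le_of_eq ?_)
    ring

variable {K : Type} [Field K] [NumberField K]

/-- one embedding: linear forms, box bound -/
theorem embL (φ : K →+* ℂ) {M : ℕ} {C s t H : ℝ} (hC : 1 ≤ C) (hs : 0 < s) (ht : 0 < t)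
    (hH : 1 ≤ H) (hCs : 1 ≤ C * s ^ 3) (hCt : 1 ≤ C * t ^ 3) {β : Blk (𝓞 K)} (hE : β.E ≠ 0)
    (hD : β.D1 ≠ 0) (hβ : β.All (Bd H)) {Λ : ℝ} (hΛ : 1 ≤ Λ)
    (hΛ' : 1 + Real.log H ≤ Λ ∨ H88.WS.Nd s t Λ β φ) : ∃ a1 b1 a2 b2 : ℂ,
      Dt s t β φ ^ 3 ≤ 16 * ‖φ (β.D1 : K)‖ ^ 2 * ‖a1 * b2 - b1 * a2‖ ^ 2 ∧
      ∀ (π : Row (𝓞 K)) (r r' u v : 𝓞 K), π.All (Bd H) → Sol β π r r' u v → Adm M C s t u v →
        ‖a1 * φ (β.eb1 π : K) + b1 * φ (β.eb2 π : K)‖ *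
            ‖a2 * φ (β.eb1 π : K) + b2 * φ (β.eb2 π : K)‖ ≤ Real.sqrt (2 * C * ‖φ (β.E : K)‖) ^ 2 ∧
          ‖a1 * φ (β.eb1 π : K) + b1 * φ (β.eb2 π : K)‖ ≤
            3264 * C * 80 ^ Fintype.card (K →+* ℂ) *
              Real.exp ((8 * Fintype.card (K →+* ℂ) + 12 : ℕ) * Λ) *
              Real.sqrt (2 * C * ‖φ (β.E : K)‖) ∧
          ‖a2 * φ (β.eb1 π : K) + b2 * φ (β.eb2 π : K)‖ ≤
            3264 * C * 80 ^ Fintype.card (K →+* ℂ) *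
              Real.exp ((8 * Fintype.card (K →+* ℂ) + 12 : ℕ) * Λ) *
              Real.sqrt (2 * C * ‖φ (β.E : K)‖) := by
  set n := Fintype.card (K →+* ℂ) with hn
  have hw0 : 0 ≤ Real.sqrt (2 * C * ‖φ (β.E : K)‖) := Real.sqrt_nonneg _
  have h80 : (1 : ℝ) ≤ 80 ^ n := one_le_pow₀ (by norm_num)
  have hC0 : 0 < C := by linarith
  rcases hΛ' with h | h
  · obtain ⟨a1, b1, a2, b2, h1, h2⟩ := emb (M := M) φ hC hs ht hH hCs hCt hE hD hβ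
    refine ⟨a1, b1, a2, b2, h1, fun π r r' u v hπ hsol hadm => ?_⟩
    obtain ⟨h3, h4, h5⟩ := h2 π r r' u v hπ hsol hadm
    rw [← hn] at h4 h5
    have hH0 : 0 < H := by linarith
    have hlH : 0 ≤ Real.log H := Real.log_nonneg hH
    have e1 : H ^ (8 * n + 8) ≤ Real.exp ((8 * n + 12 : ℕ) * Λ) := by
      rw [← Real.exp_log (pow_pos hH0 (8 * n + 8)), Real.log_pow]
      refine Real.exp_le_exp.2 ?_
      have e2 : Real.log H ≤ Λ := by linarith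
      have e3 : ((8 * n + 8 : ℕ) : ℝ) ≤ ((8 * n + 12 : ℕ) : ℝ) := by
        exact_mod_cast (by omega : 8 * n + 8 ≤ 8 * n + 12)
      exact mul_le_mul e3 e2 hlH (Nat.cast_nonneg _)
    have e4 : 816 * C * 80 ^ n * H ^ (8 * n + 8) ≤
        3264 * C * 80 ^ n * Real.exp ((8 * n + 12 : ℕ) * Λ) := by
      refine mul_le_mul ?_ e1 (by positivity) (by positivity)
      have : 0 ≤ C * 80 ^ n := by positivity
      linarith
    have e5 := mul_le_mul_of_nonneg_right e4 hw0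
    exact ⟨h3, h4.trans e5, h5.trans e5⟩
  · obtain ⟨⟨g1, g2, g3⟩, ⟨g4, g5, g6⟩, g7, g8, g9⟩ := h
    obtain ⟨eD1, eD2, eD3, eE⟩ := bm_D (fo φ) β
    have nE : ‖φ (β.E : K)‖ = ‖(bm (fo φ) β).E‖ := by rw [eE]; rfl
    have nD : ‖φ (β.D1 : K)‖ = ‖(bm (fo φ) β).D1‖ := by rw [eD1]; rfl
    have nR : Pool.Agent.H67.WA.sz φ (β.D2 ^ 2 - 4 * (β.D1 * β.D3)) =
        ‖(bm (fo φ) β).D2 ^ 2 - 4 * ((bm (fo φ) β).D1 * (bm (fo φ) β).D3)‖ := by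
      rw [eD1, eD2, eD3]
      have e : (fo φ) β.D2 ^ 2 - 4 * ((fo φ) β.D1 * (fo φ) β.D3) =
          (fo φ) (β.D2 ^ 2 - 4 * (β.D1 * β.D3)) := by
        simp only [map_sub, map_mul, map_pow, map_ofNat]
      rw [e]
      rfl
    have hG : 1 ≤ Real.exp Λ := Real.one_le_exp (by linarith)
    have hGn : Real.exp (-Λ) * Real.exp Λ = 1 := by rw [← Real.exp_add]; simp
    have key : ∀ X Y : ℝ, Real.exp (-Λ) * X ≤ Y → X ≤ Real.exp Λ * Y := by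
      intro X Y h
      calc X = Real.exp Λ * (Real.exp (-Λ) * X) := by
            rw [← mul_assoc, mul_comm (Real.exp Λ), hGn, one_mul]
        _ ≤ _ := mul_le_mul_of_nonneg_left h (Real.exp_pos _).le
    obtain ⟨a1, b1, a2, b2, h1, h2⟩ := embC (bm (fo φ) β) (C := C) hC hs ht hG ⟨g1, g2, g3⟩
      ⟨g4, g5, g6⟩ (by rw [← nD]; exact key _ _ g7) (by rw [← nE]; exact key _ _ g8)
      (by rw [← nR]; exact key _ _ g9)
    refine ⟨a1, b1, a2, b2, ?_, fun π r r' u v _ hsol hadm => ?_⟩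
    · unfold Dt
      rw [eD1, eD2, eD3] at h1
      exact h1
    obtain ⟨ee1, ee2⟩ := bm_eb (fo φ) β π
    have hx1 : φ (β.eb1 π : K) = (bm (fo φ) β).eb1 (rm (fo φ) π) := ee1.symm
    have hx2 : φ (β.eb2 π : K) = (bm (fo φ) β).eb2 (rm (fo φ) π) := ee2.symm
    obtain ⟨h3, h4, h5⟩ := h2 (rm (fo φ) π) _ _ _ _ (bm_sol (fo φ) hsol) (hadm.ule φ) (hadm.vle φ)
    rw [← nE] at h3 h4 h5
    have e1 : Real.exp Λ ^ 12 ≤ Real.exp ((8 * n + 12 : ℕ) * Λ) := by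
      rw [← Real.exp_nat_mul]
      refine Real.exp_le_exp.2 (mul_le_mul_of_nonneg_right ?_ (by linarith))
      exact_mod_cast (by omega : 12 ≤ 8 * n + 12)
    have e4 : 3264 * C * Real.exp Λ ^ 12 ≤
        3264 * C * 80 ^ n * Real.exp ((8 * n + 12 : ℕ) * Λ) := by
      refine mul_le_mul ?_ e1 (by positivity) (by positivity)
      have : 1 * (3264 * C) ≤ 80 ^ n * (3264 * C) := mul_le_mul_of_nonneg_right h80 (by positivity)
      linarith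
    have e5 := mul_le_mul_of_nonneg_right e4 hw0
    rw [hx1, hx2]
    refine ⟨?_, h4.trans e5, h5.trans e5⟩
    rw [Real.sq_sqrt (by positivity)]
    exact h3

/-- the completions lemma for given classes -/
theorem com (K : Type) [Field K] [NumberField K] (M : ℕ) (hM : M ≠ 0) (C : ℝ) (hC : 1 ≤ C)
    (m2 : ℕ) (hm2 : m2 ≠ 0) : ∃ C' : ℝ, 0 < C' ∧ ∀ s t H : ℝ, 0 < s → 0 < t → 1 ≤ H →
    ∀ β : Blk (𝓞 K), β.E ≠ 0 → β.D1 ≠ 0 → β.All (Bd H) →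
    ∀ gb gc : Ideal (𝓞 K), gb ≠ ⊥ → gc ≠ ⊥ → ∀ (F : ℕ) (cl : Row (𝓞 K) → ℕ), (∀ π, cl π < F) →
      (∀ (u v u' v' r r' ρ ρ' : 𝓞 K) (π π' : Row (𝓞 K)),
            Adm M C s t u v → Sol β π r r' u v → Adm M C s t u' v' → Sol β π' ρ ρ' u' v' →
            cl π = cl π' → ∀ x ∈ gb * gc, β.E ∣ (m2 : 𝓞 K) * x * β.br π π') →
      ∀ Λ : (K →+* ℂ) → ℝ, (∀ φ, 1 ≤ Λ φ ∧ (1 + Real.log H ≤ Λ φ ∨ H88.WS.Nd s t (Λ φ) β φ)) →
      ∀ S : Finset (𝓞 K × 𝓞 K), (∀ x ∈ S, Adm M C s t x.1 x.2 ∧ Rep H β x.1 x.2) →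
        (S.card : ℝ) ≤ C' * F * (∏ φ, Λ φ) *
          (1 + Ideal.absNorm gb * Ideal.absNorm gc * ∏ φ : K →+* ℂ, Dt s t β φ ^ (-(3 / 2) : ℝ)) := by
  classical
  obtain ⟨C3, hC3, hgrp⟩ := grp K M hM C hC m2 hm2
  set n := Fintype.card (K →+* ℂ) with hn
  obtain ⟨C4, hC4, hLL⟩ := exLL (3264 * C * 80 ^ n)
    (by
      have : (1 : ℝ) ≤ 80 ^ n := one_le_pow₀ (by norm_num)
      nlinarith) (8 * n + 12)
  refine ⟨C3 * C4 ^ n, by positivity, ?_⟩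
  intro s t H hs ht hH β hE hD hβ gb gc hgb hgc F cl hcl hmain Λ hΛ S hS
  have hΛ0 : ∀ φ, 0 ≤ Λ φ := fun φ => by have := (hΛ φ).1; linarith
  have hΛp : 0 ≤ ∏ φ, Λ φ := Finset.prod_nonneg fun φ _ => hΛ0 φ
  set V : ℝ := Ideal.absNorm gb * Ideal.absNorm gc *
    ∏ φ : K →+* ℂ, Dt s t β φ ^ (-(3 / 2) : ℝ) with hV
  have hV0 : 0 ≤ V := by
    rw [hV]
    refine mul_nonneg (by positivity) (Finset.prod_nonneg fun φ _ => ?_)
    exact Real.rpow_nonneg (Dt_pos hs hD φ).le _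
  rcases S.eq_empty_or_nonempty with rfl | ⟨x0, hx0⟩
  · rw [Finset.card_empty, Nat.cast_zero]
    positivity
  obtain ⟨hCs, hCt⟩ := s_low (hS x0 hx0).1
  -- solutions
  have hex : ∀ x : 𝓞 K × 𝓞 K, ∃ (π : Row (𝓞 K)) (r r' : 𝓞 K), x ∈ S →
      π.All (Bd H) ∧ Sol β π r r' x.1 x.2 := by
    intro x
    by_cases hx : x ∈ S
    · obtain ⟨π, r, r', h6, h7⟩ := (hS x hx).2
      exact ⟨π, r, r', fun _ => ⟨h6, h7⟩⟩
    · exact ⟨⟨0, 0, 0, 0⟩, 0, 0, fun h => absurd h hx⟩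
  choose π ρ ρ' hπ using hex
  -- linear forms
  have hem : ∀ φ : K →+* ℂ, ∃ z : ℂ × ℂ × ℂ × ℂ,
      Dt s t β φ ^ 3 ≤ 16 * ‖φ (β.D1 : K)‖ ^ 2 * ‖z.1 * z.2.2.2 - z.2.1 * z.2.2.1‖ ^ 2 ∧
      ∀ x ∈ S,
        ‖z.1 * φ (β.eb1 (π x) : K) + z.2.1 * φ (β.eb2 (π x) : K)‖ *
            ‖z.2.2.1 * φ (β.eb1 (π x) : K) + z.2.2.2 * φ (β.eb2 (π x) : K)‖ ≤
              Real.sqrt (2 * C * ‖φ (β.E : K)‖) ^ 2 ∧
          ‖z.1 * φ (β.eb1 (π x) : K) + z.2.1 * φ (β.eb2 (π x) : K)‖ ≤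
            3264 * C * 80 ^ n * Real.exp ((8 * n + 12 : ℕ) * Λ φ) *
              Real.sqrt (2 * C * ‖φ (β.E : K)‖) ∧
          ‖z.2.2.1 * φ (β.eb1 (π x) : K) + z.2.2.2 * φ (β.eb2 (π x) : K)‖ ≤
            3264 * C * 80 ^ n * Real.exp ((8 * n + 12 : ℕ) * Λ φ) *
              Real.sqrt (2 * C * ‖φ (β.E : K)‖) := by
    intro φ
    obtain ⟨a1, b1, a2, b2, h6, h7⟩ := embL (M := M) φ hC hs ht hH hCs hCt hE hD hβ (hΛ φ).1 (hΛ φ).2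
    exact ⟨(a1, b1, a2, b2), h6, fun x hx => h7 (π x) (ρ x) (ρ' x) x.1 x.2 (hπ x hx).1
      (hπ x hx).2 (hS x hx).1⟩
  choose z hz1 hz2 using hem
  choose L hL1 hL2 using fun φ : K →+* ℂ => hLL (Λ φ) (hΛ φ).1
  have hw : ∀ φ : K →+* ℂ, 0 < Real.sqrt (2 * C * ‖φ (β.E : K)‖) := by
    intro φ
    apply Real.sqrt_pos.2
    have : 0 < ‖φ (β.E : K)‖ := by
      rw [norm_pos_iff, map_ne_zero]
      exact fun h0 => hE (NumberField.RingOfIntegers.coe_injective h0)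
    positivity
  -- boxes
  have hbx : ∀ (φ : K →+* ℂ) (x : 𝓞 K × 𝓞 K), ∃ i : Bool × ℕ, i.2 ≤ L φ ∧ (x ∈ S →
      ‖(z φ).1 * φ (β.eb1 (π x) : K) + (z φ).2.1 * φ (β.eb2 (π x) : K)‖ ≤
          bA (Real.sqrt (2 * C * ‖φ (β.E : K)‖)) i ∧
        ‖(z φ).2.2.1 * φ (β.eb1 (π x) : K) + (z φ).2.2.2 * φ (β.eb2 (π x) : K)‖ ≤
          bB (Real.sqrt (2 * C * ‖φ (β.E : K)‖)) i) := by
    intro φ x
    by_cases hx : x ∈ S
    · obtain ⟨h6, h7, h8⟩ := hz2 φ x hx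
      have hw' := hw φ
      have h9 : ∀ y : ℝ, y ≤ 3264 * C * 80 ^ n * Real.exp ((8 * n + 12 : ℕ) * Λ φ) *
          Real.sqrt (2 * C * ‖φ (β.E : K)‖) → y ≤ 2 ^ L φ * Real.sqrt (2 * C * ‖φ (β.E : K)‖) :=
        fun y hy => hy.trans (mul_le_mul_of_nonneg_right (hL1 φ) hw'.le)
      obtain ⟨i, hi1, hi2, hi3⟩ := dya hw' (norm_nonneg _) (norm_nonneg _) h6 (h9 _ h7) (h9 _ h8)
      exact ⟨i, hi1, fun _ => ⟨hi2, hi3⟩⟩
    · exact ⟨(false, 0), Nat.zero_le _, fun h => absurd h hx⟩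
  choose i hi1 hi2 using hbx
  -- grouping
  set f : 𝓞 K × 𝓞 K → ℕ × ((K →+* ℂ) → Bool × ℕ) := fun x => (cl (π x), fun φ => i φ x) with hf
  set T : Finset (ℕ × ((K →+* ℂ) → Bool × ℕ)) := Finset.range F ×ˢ
    Fintype.piFinset fun φ => (Finset.univ : Finset Bool) ×ˢ Finset.range (L φ + 1) with hT
  have himg : S.image f ⊆ T := by
    intro g hg
    obtain ⟨x, -, rfl⟩ := Finset.mem_image.1 hg
    rw [hT, Finset.mem_product]
    refine ⟨?_, ?_⟩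
    · rw [Finset.mem_range]
      exact hcl (π x)
    · rw [Fintype.mem_piFinset]
      intro φ
      rw [Finset.mem_product, Finset.mem_range, Nat.lt_succ_iff]
      exact ⟨Finset.mem_univ _, hi1 φ x⟩
  have hTc : (T.card : ℝ) ≤ F * (C4 ^ n * ∏ φ, Λ φ) := by
    rw [hT, Finset.card_product, Finset.card_range, Fintype.card_piFinset]
    simp only [Finset.card_product, Finset.card_univ, Fintype.card_bool, Finset.card_range]
    push_cast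
    refine mul_le_mul_of_nonneg_left ?_ (Nat.cast_nonneg _)
    calc ∏ φ : K →+* ℂ, 2 * ((L φ : ℝ) + 1) ≤ ∏ φ : K →+* ℂ, C4 * Λ φ :=
          Finset.prod_le_prod (fun φ _ => by positivity) fun φ _ => hL2 φ
      _ = C4 ^ n * ∏ φ, Λ φ := by
          rw [Finset.prod_mul_distrib, Finset.prod_const, Finset.card_univ]
  have hfib : ∀ g ∈ S.image f, (S.filter fun x => f x = g).card ≤ ⌊C3 * (1 + V)⌋₊ := by
    intro g hg
    apply Nat.le_floor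
    set S0 := S.filter fun x => f x = g with hS0
    have hsub : ∀ x ∈ S0, x ∈ S ∧ cl (π x) = g.1 ∧ ∀ φ, i φ x = g.2 φ := by
      intro x hx
      obtain ⟨hx1, hx2⟩ := Finset.mem_filter.1 hx
      refine ⟨hx1, congrArg Prod.fst hx2, fun φ => ?_⟩
      exact congrFun (congrArg Prod.snd hx2) φ
    refine hgrp s t hs ht β hE hD gb gc hgb hgc (fun φ => (z φ).1) (fun φ => (z φ).2.1)
      (fun φ => (z φ).2.2.1) (fun φ => (z φ).2.2.2)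
      (fun φ => bA (Real.sqrt (2 * C * ‖φ (β.E : K)‖)) (g.2 φ))
      (fun φ => bB (Real.sqrt (2 * C * ‖φ (β.E : K)‖)) (g.2 φ)) ?_ hz1 S0 π ρ ρ' ?_ ?_ ?_
    · intro φ
      obtain ⟨e1, e2, e3⟩ := bAB (hw φ) (g.2 φ)
      refine ⟨e1, e2, ?_⟩
      rw [e3, Real.sq_sqrt (by positivity)]
      linarith
    · intro x hx
      obtain ⟨e1, -, -⟩ := hsub x hx
      exact ⟨(hS x e1).1, (hπ x e1).2⟩
    · intro x hx φ
      obtain ⟨e1, -, e3⟩ := hsub x hx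
      have e4 := hi2 φ x e1
      rw [e3 φ] at e4
      exact e4
    · intro x hx y hy w hw'
      obtain ⟨e1, e2, -⟩ := hsub x hx
      obtain ⟨e4, e5, -⟩ := hsub y hy
      exact hmain x.1 x.2 y.1 y.2 (ρ x) (ρ' x) (ρ y) (ρ' y) (π x) (π y) (hS x e1).1
        (hπ x e1).2 (hS y e4).1 (hπ y e4).2 (e2.trans e5.symm) w hw'
  have h6 := Finset.card_le_mul_card_image S _ hfib
  have h7 : (S.card : ℝ) ≤ (⌊C3 * (1 + V)⌋₊ : ℝ) * (T.card : ℝ) := by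
    have := h6.trans (Nat.mul_le_mul_left _ (Finset.card_le_card himg))
    exact_mod_cast this
  calc (S.card : ℝ) ≤ (⌊C3 * (1 + V)⌋₊ : ℝ) * (T.card : ℝ) := h7
    _ ≤ (C3 * (1 + V)) * (F * (C4 ^ n * ∏ φ, Λ φ)) := by
      gcongr
      exact Nat.floor_le (by positivity)
    _ = C3 * C4 ^ n * F * (∏ φ, Λ φ) * (1 + V) := by ring

/-- **COM, `D3 ≠ 0`** -/
theorem com2 (K : Type) [Field K] [NumberField K] (hL : H88.WS.Loc2Stmt K) : H88.WS.Com2Stmt K := by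
  intro M hM
  obtain ⟨m, m2, hm, hm2, h6, hloc⟩ := hL M hM
  refine ⟨m, hm, h6, fun C hC => ?_⟩
  obtain ⟨C', hC', hcom⟩ := com K M hM C hC m2 hm2
  refine ⟨C', hC', ?_⟩
  intro s t H hs ht _ _ hH β hE hD hD3 hβ
  obtain ⟨gb, gc, h1, h2, h3, h4, h5, h7, cl, hcl, hmain⟩ := hloc β hE hD hD3
  refine ⟨gb, gc, h1, h2, h3, h4, h5, h7, ?_⟩
  intro Λ hΛ S hS
  exact hcom s t H hs ht hH β hE hD hβ gb gc h1.ne_zero h2.ne_zero _ cl hcl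
    (fun u v u' v' r r' ρ ρ' π π' => hmain C s t u v u' v' r r' ρ ρ' π π') Λ hΛ S hS

/-- **COM, `c1 = c2 = 0`** -/
theorem com0 (K : Type) [Field K] [NumberField K] (hL : H88.WS.Loc0Stmt K) : H88.WS.Com0Stmt K := by
  intro M hM
  obtain ⟨m, m2, hm, hm2, h6, hloc⟩ := hL M hM
  refine ⟨m, hm, h6, fun C hC => ?_⟩
  obtain ⟨C', hC', hcom⟩ := com K M hM C hC m2 hm2
  refine ⟨C', hC', ?_⟩
  intro s t H hs ht _ _ hH β hc1 hc2 hE hD hβ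
  obtain ⟨gb, gc, h1, h2, h3, h4, h5, cl, hcl, hmain⟩ := hloc β hc1 hc2 hE hD
  refine ⟨gb, gc, h1, h2, h3, h4, h5, ?_⟩
  intro Λ hΛ S hS
  exact hcom s t H hs ht hH β hE hD hβ gb gc h1.ne_zero h2.ne_zero _ cl hcl
    (fun u v u' v' r r' ρ ρ' π π' => hmain C s t u v u' v' r r' ρ ρ' π π') Λ hΛ S hS

end H51.CM
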