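import Pool.Agent.H51.CM.Res
import Pool.Agent.H77.CO.Fin
import Pool.Agent.H88.WS.Iface

/-!
# T3, (W1#), COM: one nondegenerate embedding

`place` for the block `(b / s, c / t)`, `s = t = 1`, `H = G = exp Λ`: `‖a_i‖, ‖b_i‖ ≤ 68 G ^ 7`; `η / (s ^ 2 t)` has norm
at most `24 C G ^ 4` (`cram`: both forms are at most `20 C G ^ 4`), `1 ≤ G sqrt (2 C ‖E / (s t) ^ 2‖)`.
-/

open scoped NumberField

set_option autoImplicit false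

noncomputable section

namespace H51.CM

open H88.A4 H77.CO

theorem embC (β : Blk ℂ) {C s t G : ℝ} (hC : 1 ≤ C) (hs : 0 < s) (ht : 0 < t) (hG : 1 ≤ G)
    (hb : ‖β.b1‖ ≤ G * s ∧ ‖β.b2‖ ≤ G * s ∧ ‖β.b3‖ ≤ G * s)
    (hc : ‖β.c1‖ ≤ G * t ∧ ‖β.c2‖ ≤ G * t ∧ ‖β.c3‖ ≤ G * t)
    (hD : s ^ 2 ≤ G * ‖β.D1‖) (hE : (s * t) ^ 2 ≤ G * ‖β.E‖)
    (hR : (s * t) ^ 2 ≤ G * ‖β.D2 ^ 2 - 4 * (β.D1 * β.D3)‖) : ∃ a1 b1 a2 b2 : ℂ,
      max (‖β.D1‖ / s ^ 2) (max (‖β.D2‖ / (s * t)) (‖β.D3‖ / t ^ 2)) ^ 3 ≤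
        16 * ‖β.D1‖ ^ 2 * ‖a1 * b2 - b1 * a2‖ ^ 2 ∧
      ∀ (π : Row ℂ) (r r' u v : ℂ), Sol β π r r' u v → ‖u‖ ≤ C * s ^ 3 → ‖v‖ ≤ C * t ^ 3 →
        ‖a1 * β.eb1 π + b1 * β.eb2 π‖ * ‖a2 * β.eb1 π + b2 * β.eb2 π‖ ≤ 2 * C * ‖β.E‖ ∧
        ‖a1 * β.eb1 π + b1 * β.eb2 π‖ ≤ 3264 * C * G ^ 12 * Real.sqrt (2 * C * ‖β.E‖) ∧
        ‖a2 * β.eb1 π + b2 * β.eb2 π‖ ≤ 3264 * C * G ^ 12 * Real.sqrt (2 * C * ‖β.E‖) := by
  have hsC : (s : ℂ) ≠ 0 := Complex.ofReal_ne_zero.2 hs.ne'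
  have htC : (t : ℂ) ≠ 0 := Complex.ofReal_ne_zero.2 ht.ne'
  have hns : ‖(s : ℂ)‖ = s := by rw [Complex.norm_real, Real.norm_eq_abs, abs_of_pos hs]
  have hnt : ‖(t : ℂ)‖ = t := by rw [Complex.norm_real, Real.norm_eq_abs, abs_of_pos ht]
  have hG0 : 0 < G := by linarith
  have hC0 : 0 < C := by linarith
  have hst : 0 < (s * t) ^ 2 := by positivity
  obtain ⟨eD1, eD2, eD3, eE⟩ := sB_D hsC htC β
  set γ := sB (s : ℂ) (t : ℂ) β with hγ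
  have nD1 : ‖γ.D1‖ = ‖β.D1‖ / s ^ 2 := by rw [eD1, norm_div, norm_pow, hns]
  have nD2 : ‖γ.D2‖ = ‖β.D2‖ / (s * t) := by rw [eD2, norm_div, norm_mul, hns, hnt]
  have nD3 : ‖γ.D3‖ = ‖β.D3‖ / t ^ 2 := by rw [eD3, norm_div, norm_pow, hnt]
  have nE : ‖γ.E‖ = ‖β.E‖ / (s * t) ^ 2 := by rw [eE, norm_div, norm_pow, norm_mul, hns, hnt]
  have gD : 1 ≤ G * ‖γ.D1‖ := by
    rw [nD1, ← mul_div_assoc, le_div_iff₀ (by positivity), one_mul]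
    exact hD
  have gE : 1 ≤ G * ‖γ.E‖ := by
    rw [nE, ← mul_div_assoc, le_div_iff₀ hst, one_mul]
    exact hE
  have gR : 1 ≤ G * ‖γ.D2 ^ 2 - 4 * (γ.D1 * γ.D3)‖ := by
    have e : γ.D2 ^ 2 - 4 * (γ.D1 * γ.D3) = (β.D2 ^ 2 - 4 * (β.D1 * β.D3)) / ((s : ℂ) * t) ^ 2 := by
      rw [eD1, eD2, eD3]
      field_simp
    rw [e, norm_div, norm_pow, norm_mul, hns, hnt, ← mul_div_assoc, le_div_iff₀ hst, one_mul]
    exact hR
  have gγ : γ.All (fun z => ‖z‖ ≤ G) := by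
    have k1 : ∀ z : ℂ, ‖z‖ ≤ G * s → ‖z / (s : ℂ)‖ ≤ G := by
      intro z hz
      rw [norm_div, hns, div_le_iff₀ hs]
      exact hz
    have k2 : ∀ z : ℂ, ‖z‖ ≤ G * t → ‖z / (t : ℂ)‖ ≤ G := by
      intro z hz
      rw [norm_div, hnt, div_le_iff₀ ht]
      exact hz
    exact ⟨k1 _ hb.1, k1 _ hb.2.1, k1 _ hb.2.2, k2 _ hc.1, k2 _ hc.2.1, k2 _ hc.2.2⟩
  have gD0 : 0 < ‖γ.D1‖ := by
    by_contra h0
    have h1 : ‖γ.D1‖ = 0 := le_antisymm (not_lt.1 h0) (norm_nonneg _)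
    rw [h1] at gD
    linarith
  have gDne : γ.D1 ≠ 0 := norm_pos_iff.1 gD0
  obtain ⟨a1, b1, a2, b2, σ1, σ2, hσ1, hσ2, hid, hdt, ha2, hb2, ha1, hb1⟩ :=
    place γ gDne one_pos one_pos gγ
  refine ⟨a1 / s, b1 / s, a2 / s, b2 / s, ?_, ?_⟩
  · have e1 : a1 / (s : ℂ) * (b2 / s) - b1 / s * (a2 / s) = (a1 * b2 - b1 * a2) / (s : ℂ) ^ 2 := by
      field_simp
    rw [e1, norm_div, norm_pow, hns]
    simp only [one_pow, mul_one, div_one] at hdt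
    rw [nD1, nD2, nD3] at hdt
    refine hdt.trans (le_of_eq ?_)
    field_simp
  intro π r r' u v hsol hu hv
  obtain ⟨ee1, ee2⟩ := sB_eb hsC htC β π
  have hsol' := sB_sol hsC htC hsol
  rw [← hγ] at ee1 ee2 hsol'
  set x := γ.eb1 (sR (s : ℂ) (t : ℂ) π) with hx
  set y := γ.eb2 (sR (s : ℂ) (t : ℂ) π) with hy
  have h1 := eu hsol'
  have h2 := ev' hsol'
  have h3 := ac_eb hsol'
  rw [← hx, ← hy] at h1 h2 h3
  have nu : ‖u / (s : ℂ) ^ 3‖ ≤ C := by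
    rw [norm_div, norm_pow, hns, div_le_iff₀ (by positivity)]
    exact hu
  have nv : ‖v / (t : ℂ) ^ 3‖ ≤ C := by
    rw [norm_div, norm_pow, hnt, div_le_iff₀ (by positivity)]
    exact hv
  have fEγ := fE gγ
  have fD1γ := fD1 gγ
  have fD2γ := fD2 gγ
  have fD3γ := fD3 gγ
  have F1 : ‖γ.Ab x y x y‖ ≤ 20 * C * G ^ 4 := by
    rw [← h1, norm_mul]
    calc ‖γ.E‖ * ‖u / (s : ℂ) ^ 3‖ ≤ 20 * G ^ 4 * C :=
          mul_le_mul fEγ nu (norm_nonneg _) (by positivity)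
      _ = _ := by ring
  have F2 : ‖γ.Ac x y x y‖ ≤ 20 * C * G ^ 4 := by
    rw [h3, norm_neg]
    refine (norm_add_le _ _).trans ?_
    rw [norm_mul, norm_mul, norm_mul, norm_pow]
    have e1 : ‖γ.D1‖ ^ 2 * ‖v / (t : ℂ) ^ 3‖ ≤ (2 * G ^ 2) ^ 2 * C :=
      mul_le_mul (pow_le_pow_left₀ (norm_nonneg _) fD1γ 2) nv (norm_nonneg _) (by positivity)
    have e2 : ‖γ.D2‖ * ‖γ.D3‖ * ‖u / (s : ℂ) ^ 3‖ ≤ (4 * G ^ 2) * (2 * G ^ 2) * C :=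
      mul_le_mul (mul_le_mul fD2γ fD3γ (norm_nonneg _) (by positivity)) nu (norm_nonneg _) (by positivity)
    calc _ ≤ (2 * G ^ 2) ^ 2 * C + (4 * G ^ 2) * (2 * G ^ 2) * C := add_le_add e1 e2
      _ = 12 * (C * G ^ 4) := by ring
      _ ≤ 20 * (C * G ^ 4) := by
        have : 0 ≤ C * G ^ 4 := by positivity
        linarith
      _ = _ := by ring
  have hcr := cram hG gγ gR F1 F2
  have hm : max ‖x‖ ‖y‖ ≤ 24 * C * G ^ 4 := by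
    have e1 : max ‖x‖ ‖y‖ ^ 2 ≤ (24 * C * G ^ 4) ^ 2 := by
      refine hcr.trans ?_
      have e2 : 1 * (C * G ^ 8) ≤ C * (C * G ^ 8) := mul_le_mul_of_nonneg_right hC (by positivity)
      calc 28 * G ^ 4 * (20 * C * G ^ 4) = 560 * (1 * (C * G ^ 8)) := by ring
        _ ≤ 576 * (1 * (C * G ^ 8)) := by
          have : 0 ≤ 1 * (C * G ^ 8) := by positivity
          linarith
        _ ≤ 576 * (C * (C * G ^ 8)) := by linarith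
        _ = _ := by ring
    exact (abs_le_of_sq_le_sq' e1 (by positivity)).2
  have hx' : ‖x‖ ≤ 24 * C * G ^ 4 := (le_max_left _ _).trans hm
  have hy' : ‖y‖ ≤ 24 * C * G ^ 4 := (le_max_right _ _).trans hm
  -- the square root
  set w := Real.sqrt (2 * C * ‖γ.E‖) with hw
  have hwsq : w ^ 2 = 2 * C * ‖γ.E‖ := Real.sq_sqrt (by positivity)
  have hw0 : 0 ≤ w := Real.sqrt_nonneg _
  have hwst : Real.sqrt (2 * C * ‖β.E‖) = s * t * w := by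
    have e1 : 2 * C * ‖β.E‖ = (s * t) ^ 2 * (2 * C * ‖γ.E‖) := by
      rw [nE]
      field_simp
    rw [e1, Real.sqrt_mul (by positivity), Real.sqrt_sq (by positivity)]
  have hwl : 1 ≤ G * w := by
    have e1 : (1 : ℝ) ^ 2 ≤ (G * w) ^ 2 := by
      rw [mul_pow, hwsq, one_pow]
      calc (1 : ℝ) = 1 * 1 := by ring
        _ ≤ (G * (2 * C)) * (G * ‖γ.E‖) := by
          refine mul_le_mul ?_ gE zero_le_one (by positivity)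
          calc (1 : ℝ) = 1 * 1 := by ring
            _ ≤ G * (2 * C) := mul_le_mul hG (by linarith) zero_le_one (by positivity)
        _ = G ^ 2 * (2 * C * ‖γ.E‖) := by ring
    exact (abs_le_of_sq_le_sq' e1 (by positivity)).2
  -- the values
  have hv1 : a1 / (s : ℂ) * β.eb1 π + b1 / s * β.eb2 π = s * t * (a1 * x + b1 * y) := by
    rw [ee1, ee2]
    field_simp
  have hv2 : a2 / (s : ℂ) * β.eb1 π + b2 / s * β.eb2 π = s * t * (a2 * x + b2 * y) := by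
    rw [ee1, ee2]
    field_simp
  have nst : ‖(s : ℂ) * t‖ = s * t := by rw [norm_mul, hns, hnt]
  have hcoef : 4 * G / 1 ^ 3 + 64 * G ^ 5 / (1 ^ 3 * ‖γ.D1‖ ^ 2) ≤ 68 * G ^ 7 := by
    have e1 : 64 * G ^ 5 / (1 ^ 3 * ‖γ.D1‖ ^ 2) ≤ 64 * G ^ 7 := by
      rw [one_pow, one_mul, div_le_iff₀ (by positivity)]
      have e2 : (1 : ℝ) ≤ (G * ‖γ.D1‖) ^ 2 := one_le_pow₀ gD
      calc 64 * G ^ 5 = 64 * G ^ 5 * 1 := by ring
        _ ≤ 64 * G ^ 5 * (G * ‖γ.D1‖) ^ 2 := mul_le_mul_of_nonneg_left e2 (by positivity)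
        _ = _ := by ring
    have e3 : G ≤ G ^ 7 := by
      calc G = G ^ 1 := (pow_one G).symm
        _ ≤ G ^ 7 := pow_le_pow_right₀ hG (by norm_num)
    rw [one_pow, div_one]
    linarith
  have hG7 : 1 ≤ G ^ 7 := one_le_pow₀ hG
  have hlin : ∀ a b : ℂ, ‖a‖ ≤ 68 * G ^ 7 → ‖b‖ ≤ 68 * G ^ 7 →
      ‖(s : ℂ) * t * (a * x + b * y)‖ ≤ 3264 * C * G ^ 12 * Real.sqrt (2 * C * ‖β.E‖) := by
    intro a b ha hb
    have e1 : ‖a * x + b * y‖ ≤ 3264 * C * G ^ 11 := by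
      refine (norm_add_le _ _).trans ?_
      rw [norm_mul, norm_mul]
      have e1 : ‖a‖ * ‖x‖ ≤ (68 * G ^ 7) * (24 * C * G ^ 4) :=
        mul_le_mul ha hx' (norm_nonneg _) (by positivity)
      have e2 : ‖b‖ * ‖y‖ ≤ (68 * G ^ 7) * (24 * C * G ^ 4) :=
        mul_le_mul hb hy' (norm_nonneg _) (by positivity)
      calc _ ≤ (68 * G ^ 7) * (24 * C * G ^ 4) + (68 * G ^ 7) * (24 * C * G ^ 4) := add_le_add e1 e2
        _ = _ := by ring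
    rw [norm_mul, nst, hwst]
    calc s * t * ‖a * x + b * y‖ ≤ s * t * (3264 * C * G ^ 11) :=
          mul_le_mul_of_nonneg_left e1 (by positivity)
      _ ≤ s * t * (3264 * C * G ^ 11) * (G * w) := le_mul_of_one_le_right (by positivity) hwl
      _ = _ := by ring
  refine ⟨?_, ?_, ?_⟩
  · rw [hv1, hv2, norm_mul ((s : ℂ) * t) (a1 * x + b1 * y), norm_mul ((s : ℂ) * t) (a2 * x + b2 * y), nst]
    have e0 : ‖a1 * x + b1 * y‖ * ‖a2 * x + b2 * y‖ ≤ 2 * C * ‖γ.E‖ := by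
      rw [← norm_mul, hid, ← h1, ← h2, mul_div_cancel_left₀ _ (pow_ne_zero 2 gDne)]
      have hσ1' : ‖σ1‖ ≤ 1 := by rcases hσ1 with h | h <;> rw [h] <;> simp
      have hσ2' : ‖σ2‖ ≤ 1 := by rcases hσ2 with h | h <;> rw [h] <;> simp
      have e1 : ‖σ1 / ((1 : ℝ) : ℂ) ^ 3 * (γ.E * (u / (s : ℂ) ^ 3))‖ ≤ C * ‖γ.E‖ := by
        rw [Complex.ofReal_one, one_pow, div_one, norm_mul, norm_mul]
        calc ‖σ1‖ * (‖γ.E‖ * ‖u / (s : ℂ) ^ 3‖) ≤ 1 * (‖γ.E‖ * C) := by gcongr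
          _ = _ := by ring
      have e2 : ‖σ2 / ((1 : ℝ) : ℂ) ^ 3 * (γ.E * (v / (t : ℂ) ^ 3))‖ ≤ C * ‖γ.E‖ := by
        rw [Complex.ofReal_one, one_pow, div_one, norm_mul, norm_mul]
        calc ‖σ2‖ * (‖γ.E‖ * ‖v / (t : ℂ) ^ 3‖) ≤ 1 * (‖γ.E‖ * C) := by gcongr
          _ = _ := by ring
      refine (norm_add_le _ _).trans ?_
      linarith
    calc s * t * ‖a1 * x + b1 * y‖ * (s * t * ‖a2 * x + b2 * y‖) =
          (s * t) ^ 2 * (‖a1 * x + b1 * y‖ * ‖a2 * x + b2 * y‖) := by ring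
      _ ≤ (s * t) ^ 2 * (2 * C * ‖γ.E‖) := mul_le_mul_of_nonneg_left e0 hst.le
      _ = 2 * C * ‖β.E‖ := by
        rw [nE]
        field_simp
  · rw [hv1]
    exact hlin a1 b1 (ha1.trans hcoef) (hb1.trans hcoef)
  · rw [hv2]
    exact hlin a2 b2 (ha2.trans (by linarith)) (hb2.trans (by linarith))

end H51.CM
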