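import Pool.Agent.H77.CO.Bnd

/-!
# T3, (W1#), COM: the value of `adj(c)` at `η_b`, the resultant of `adj(b)`, `adj(c)`, scaling

`adj(c)[η_b] = -(D1 ^ 2 v + D2 D3 u)`; `Res (adj b, adj c) = D2 ^ 2 - 4 D1 D3`; `Res x ^ 3`, `Res y ^ 3` are combinations of the
two forms at `(x, y)` with linear coefficients (Cramer). The scaling `b / s`, `c / t`, `p / s`, `q / t`, `η / (s ^ 2 t)`.
-/

set_option autoImplicit false

noncomputable section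

namespace H51.CM

open H88.A4 H77.CO

section ring

variable {R : Type} [CommRing R]

/-- `adj(c)[η_b] = -(D1 ^ 2 v + D2 D3 u)` -/
theorem ac_eb {β : Blk R} {π : Row R} {r r' u v : R} (h : Sol β π r r' u v) :
    β.Ac (β.eb1 π) (β.eb2 π) (β.eb1 π) (β.eb2 π) = -(β.D1 ^ 2 * v + β.D2 * β.D3 * u) := by
  have e1 := h.e1
  have e2 := h.e2
  have e4 := h.e4
  simp only [Blk.D1, Blk.D2, Blk.D3, Blk.Ab, Blk.Ac, Blk.eb1, Blk.eb2] at e1 e2 e4 ⊢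
  linear_combination (-((β.b1 * β.c3 + β.b3 * β.c1 - 2 * β.b2 * β.c2) * (β.c1 * β.c3 - β.c2 ^ 2))) * e1 +
    (β.b1 * β.b3 - β.b2 ^ 2) * (β.c1 * β.c3 - β.c2 ^ 2) * e2 - (β.b1 * β.b3 - β.b2 ^ 2) ^ 2 * e4

theorem res_x (β : Blk R) (x y : R) : (β.D2 ^ 2 - 4 * (β.D1 * β.D3)) * x ^ 3 =
    ((β.b3 * β.c1 - β.b1 * β.c3) * x + 2 * (β.b2 * β.c1 - β.b1 * β.c2) * y) *
      (β.c1 * β.Ab x y x y - β.b1 * β.Ac x y x y) +
    4 * (β.b2 * β.c1 - β.b1 * β.c2) * x * (β.b2 * β.Ac x y x y - β.c2 * β.Ab x y x y) := by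
  simp only [Blk.D1, Blk.D2, Blk.D3, Blk.Ab, Blk.Ac]
  ring

theorem res_y (β : Blk R) (x y : R) : (β.D2 ^ 2 - 4 * (β.D1 * β.D3)) * y ^ 3 =
    -((2 * (β.b3 * β.c2 - β.b2 * β.c3) * x + (β.b3 * β.c1 - β.b1 * β.c3) * y) *
      (β.c3 * β.Ab x y x y - β.b3 * β.Ac x y x y) +
    4 * (β.b3 * β.c2 - β.b2 * β.c3) * y * (β.b2 * β.Ac x y x y - β.c2 * β.Ab x y x y)) := by
  simp only [Blk.D1, Blk.D2, Blk.D3, Blk.Ab, Blk.Ac]
  ring

end ring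

private theorem minor_le {a b c d : ℂ} {H : ℝ} (ha : ‖a‖ ≤ H) (hb : ‖b‖ ≤ H) (hc : ‖c‖ ≤ H)
    (hd : ‖d‖ ≤ H) : ‖a * b - c * d‖ ≤ 2 * H ^ 2 := by
  have h0 : 0 ≤ H := (norm_nonneg a).trans ha
  calc ‖a * b - c * d‖ ≤ ‖a * b‖ + ‖c * d‖ := norm_sub_le _ _
    _ ≤ H * H + H * H := by
        rw [norm_mul, norm_mul]
        exact add_le_add (mul_le_mul ha hb (norm_nonneg _) h0) (mul_le_mul hc hd (norm_nonneg _) h0)
    _ = 2 * H ^ 2 := by ring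

private theorem comb_le {a b Q1 Q2 : ℂ} {G F : ℝ} (ha : ‖a‖ ≤ G) (hb : ‖b‖ ≤ G) (h1 : ‖Q1‖ ≤ F)
    (h2 : ‖Q2‖ ≤ F) : ‖a * Q1 - b * Q2‖ ≤ 2 * (G * F) := by
  have h0 : 0 ≤ G := (norm_nonneg a).trans ha
  calc ‖a * Q1 - b * Q2‖ ≤ ‖a * Q1‖ + ‖b * Q2‖ := norm_sub_le _ _
    _ ≤ G * F + G * F := by
        rw [norm_mul, norm_mul]
        exact add_le_add (mul_le_mul ha h1 (norm_nonneg _) h0) (mul_le_mul hb h2 (norm_nonneg _) h0)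
    _ = 2 * (G * F) := by ring

private theorem tot_le {p q r x y S T : ℂ} {g m k : ℝ} (hp : ‖p‖ ≤ g) (hq : ‖q‖ ≤ g) (hr : ‖r‖ ≤ g)
    (hx : ‖x‖ ≤ m) (hy : ‖y‖ ≤ m) (hS : ‖S‖ ≤ k) (hT : ‖T‖ ≤ k) :
    ‖(p * x + 2 * q * y) * S + 4 * r * x * T‖ ≤ 7 * (g * m * k) := by
  have g0 : 0 ≤ g := (norm_nonneg p).trans hp
  have m0 : 0 ≤ m := (norm_nonneg x).trans hx
  have k0 : 0 ≤ k := (norm_nonneg S).trans hS
  have e1 : ‖p * x‖ ≤ g * m := by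
    rw [norm_mul]; exact mul_le_mul hp hx (norm_nonneg _) g0
  have e2 : ‖2 * q * y‖ ≤ 2 * (g * m) := by
    rw [mul_assoc, norm_mul, norm_mul, Complex.norm_ofNat]
    exact mul_le_mul_of_nonneg_left (mul_le_mul hq hy (norm_nonneg _) g0) (by norm_num)
  have e3 : ‖(p * x + 2 * q * y) * S‖ ≤ 3 * (g * m) * k := by
    rw [norm_mul]
    refine mul_le_mul ?_ hS (norm_nonneg _) (by positivity)
    refine (norm_add_le _ _).trans ?_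
    linarith
  have e4 : ‖4 * r * x * T‖ ≤ 4 * (g * m) * k := by
    rw [norm_mul, mul_assoc 4 r x, norm_mul 4, norm_mul r, Complex.norm_ofNat]
    refine mul_le_mul ?_ hT (norm_nonneg _) (by positivity)
    exact mul_le_mul_of_nonneg_left (mul_le_mul hr hx (norm_nonneg _) g0) (by norm_num)
  refine (norm_add_le _ _).trans ?_
  calc _ ≤ 3 * (g * m) * k + 4 * (g * m) * k := add_le_add e3 e4
    _ = 7 * (g * m * k) := by ring

/-- Cramer: the vector is bounded if both forms are bounded and the resultant is not small -/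
theorem cram {β : Blk ℂ} {G F : ℝ} (hG : 1 ≤ G) (hβ : β.All (fun z => ‖z‖ ≤ G))
    (hR : 1 ≤ G * ‖β.D2 ^ 2 - 4 * (β.D1 * β.D3)‖) {x y : ℂ} (h1 : ‖β.Ab x y x y‖ ≤ F)
    (h2 : ‖β.Ac x y x y‖ ≤ F) : max ‖x‖ ‖y‖ ^ 2 ≤ 28 * G ^ 4 * F := by
  obtain ⟨g1, g2, g3, g4, g5, g6⟩ := hβ
  have F0 : 0 ≤ F := (norm_nonneg _).trans h1
  set R := ‖β.D2 ^ 2 - 4 * (β.D1 * β.D3)‖ with hRdef
  set m := max ‖x‖ ‖y‖ with hm
  have hxm : ‖x‖ ≤ m := le_max_left _ _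
  have hym : ‖y‖ ≤ m := le_max_right _ _
  have m0 : 0 ≤ m := (norm_nonneg x).trans hxm
  have kx : R * ‖x‖ ^ 3 ≤ 28 * G ^ 3 * F * m := by
    have h := tot_le (minor_le g3 g4 g1 g6) (minor_le g2 g4 g1 g5) (minor_le g2 g4 g1 g5) hxm hym
      (comb_le g4 g1 h1 h2) (comb_le g2 g5 h2 h1)
    rw [← res_x β x y, norm_mul, norm_pow, ← hRdef] at h
    refine h.trans (le_of_eq ?_)
    ring
  have ky : R * ‖y‖ ^ 3 ≤ 28 * G ^ 3 * F * m := by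
    have h := tot_le (minor_le g3 g4 g1 g6) (minor_le g3 g5 g2 g6) (minor_le g3 g5 g2 g6) hym hxm
      (comb_le g6 g3 h1 h2) (comb_le g2 g5 h2 h1)
    have e : ‖(β.D2 ^ 2 - 4 * (β.D1 * β.D3)) * y ^ 3‖ =
        ‖((β.b3 * β.c1 - β.b1 * β.c3) * y + 2 * (β.b3 * β.c2 - β.b2 * β.c3) * x) *
          (β.c3 * β.Ab x y x y - β.b3 * β.Ac x y x y) +
          4 * (β.b3 * β.c2 - β.b2 * β.c3) * y * (β.b2 * β.Ac x y x y - β.c2 * β.Ab x y x y)‖ := by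
      rw [res_y β x y, norm_neg]
      congr 1
      ring
    rw [← e, norm_mul, norm_pow, ← hRdef] at h
    refine h.trans (le_of_eq ?_)
    ring
  have km : R * m ^ 3 ≤ 28 * G ^ 3 * F * m := by
    rcases max_choice ‖x‖ ‖y‖ with h | h
    · rw [← hm] at h
      rw [← h] at kx
      exact kx
    · rw [← hm] at h
      rw [← h] at ky
      exact ky
  have G0 : 0 ≤ G := by linarith
  rcases m0.eq_or_lt with h0 | h0
  · rw [← h0]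
    have : 0 ≤ 28 * G ^ 4 * F := by positivity
    simpa using this
  · have k2 : R * m ^ 2 ≤ 28 * G ^ 3 * F := by
      have : R * m ^ 2 * m ≤ 28 * G ^ 3 * F * m := by
        calc R * m ^ 2 * m = R * m ^ 3 := by ring
          _ ≤ _ := km
      exact le_of_mul_le_mul_right this h0
    calc m ^ 2 = 1 * m ^ 2 := by ring
      _ ≤ G * R * m ^ 2 := mul_le_mul_of_nonneg_right hR (by positivity)
      _ = G * (R * m ^ 2) := by ring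
      _ ≤ G * (28 * G ^ 3 * F) := mul_le_mul_of_nonneg_left k2 G0
      _ = 28 * G ^ 4 * F := by ring

/-! ### scaling -/

/-- the scaled block -/
def sB (s t : ℂ) (β : Blk ℂ) : Blk ℂ := ⟨β.b1 / s, β.b2 / s, β.b3 / s, β.c1 / t, β.c2 / t, β.c3 / t⟩

/-- the scaled row -/
def sR (s t : ℂ) (π : Row ℂ) : Row ℂ := ⟨π.p1 / s, π.p2 / s, π.q1 / t, π.q2 / t⟩

theorem sB_D {s t : ℂ} (hs : s ≠ 0) (ht : t ≠ 0) (β : Blk ℂ) : (sB s t β).D1 = β.D1 / s ^ 2 ∧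
    (sB s t β).D2 = β.D2 / (s * t) ∧ (sB s t β).D3 = β.D3 / t ^ 2 ∧
    (sB s t β).E = β.E / (s * t) ^ 2 := by
  refine ⟨?_, ?_, ?_, ?_⟩ <;> simp only [sB, Blk.E, Blk.D1, Blk.D2, Blk.D3] <;> field_simp

theorem sB_eb {s t : ℂ} (hs : s ≠ 0) (ht : t ≠ 0) (β : Blk ℂ) (π : Row ℂ) :
    (sB s t β).eb1 (sR s t π) = β.eb1 π / (s ^ 2 * t) ∧
    (sB s t β).eb2 (sR s t π) = β.eb2 π / (s ^ 2 * t) := by
  refine ⟨?_, ?_⟩ <;> simp only [sB, sR, Blk.eb1, Blk.eb2, Blk.D1] <;> field_simp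

theorem sB_sol {s t : ℂ} (hs : s ≠ 0) (ht : t ≠ 0) {β : Blk ℂ} {π : Row ℂ} {r r' u v : ℂ}
    (h : Sol β π r r' u v) : Sol (sB s t β) (sR s t π) (r / s) (r' / t) (u / s ^ 3) (v / t ^ 3) := by
  have e1 := h.e1
  have e2 := h.e2
  have e3 := h.e3
  have e4 := h.e4
  simp only [Blk.D1, Blk.D2, Blk.D3, Blk.Ab, Blk.Ac] at e1 e2 e3 e4
  constructor
  · simp only [sB, sR, Blk.D1, Blk.D2, Blk.D3, Blk.Ab, Blk.Ac]
    field_simp
    linear_combination e1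
  · simp only [sB, sR, Blk.D1, Blk.D2, Blk.D3, Blk.Ab, Blk.Ac]
    field_simp
    linear_combination e2
  · simp only [sB, sR, Blk.D1, Blk.D2, Blk.D3, Blk.Ab, Blk.Ac]
    field_simp
    linear_combination e3
  · simp only [sB, sR, Blk.D1, Blk.D2, Blk.D3, Blk.Ab, Blk.Ac]
    field_simp
    linear_combination e4

end H51.CM
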